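import Pool.Agent.H85.AU.Targets

open CategoryTheory CategoryTheory.Limits TopologicalSpace Topology Set
open Pool.Agent.H96.AL Pool.Agent.H85.AU

universe w v u

namespace Pool.Agent.H21.AU

theorem pf_C15 (hCLC : T_CLC.{w}) (hG13 : T_G13.{w}) (hL15 : T_L15.{w}) (hM15 : T_M15.{w}) :
    T_C15.{w} := by
  intro X _ _ _ C _ _ _ Z hZ hm t m hATI N j
  -- points outside `Z j`
  have hout : ∀ y, y ∉ Z j → ∃ U : Opens X, y ∈ U ∧
      t.toCutSys.FinCl (fun A => t.Con N A ∧ t.Conc hZ j A) U := by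
    intro y hy
    by_cases hy1 : y ∈ Z (j + 1)
    · exact hL15 X C Z hZ hm t m hATI N j y ⟨hy1, hy⟩
    · refine ⟨co hZ (j + 1), hy1, ?_⟩
      by_cases hne : ∃ P, t.Con N P ∧ t.Conc hZ j P
      · obtain ⟨P, hP⟩ := hne
        refine ⟨{P}, finite_singleton P, ?_, ?_⟩
        · intro Q hQ
          rw [mem_singleton_iff] at hQ
          subst hQ
          exact hP
        · intro A hA
          exact ⟨P, mem_singleton P, ⟨hA.2.zero.iso hP.2.zero⟩⟩
      · refine ⟨∅, finite_empty, ?_, ?_⟩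
        · intro Q hQ
          exact absurd hQ (notMem_empty Q)
        · intro A hA
          exact absurd ⟨A, hA⟩ hne
  have hall : ∀ x ∈ (⊤ : Opens X), ∃ U : Opens X, x ∈ U ∧
      t.toCutSys.FinCl (fun A => t.Con N A ∧ t.Conc hZ j A) U := by
    intro x _
    by_cases hx : x ∈ Z j
    · exact hM15 X C Z hZ hm t m hATI N j hout x hx
    · exact hout x hx
  obtain ⟨U, hU1, -, hU⟩ := hCLC X C t.toCutSys (fun A => t.Con N A ∧ t.Conc hZ j A) ⊤
    (fun A B hA hB x _ => hG13 X C Z hZ hm t m hATI N A B hA.1 hB.1 j hA.2 x)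
    hall univ isCompact_univ (fun x _ => trivial)
  have hUt : U = ⊤ := by
    ext x
    simp only [Opens.coe_top, mem_univ, iff_true]
    exact hU1 (mem_univ x)
  subst hUt
  obtain ⟨T, hT, hTS, hTA⟩ := hU
  refine ⟨T, hT, hTS, fun A hA => ?_⟩
  obtain ⟨P, hP, ⟨e⟩⟩ := hTA A hA
  exact ⟨P, hP, ⟨(t.toCutSys.topI A).symm ≪≫ e ≪≫ t.toCutSys.topI P⟩⟩

end Pool.Agent.H21.AU
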